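import Mathlib

set_option autoImplicit false
set_option maxHeartbeats 400000

open Matrix MatrixGroups Pointwise

namespace Pool.Agent.Results.MP_b8636a_al.Differ

/-- the root unipotent `x_α(ξ)` of `SL₂(R)` for the positive root. -/
def xp {R : Type} [CommRing R] (ξ : R) : SL(2, R) := ⟨!![1, ξ; 0, 1], by simp [det_fin_two]⟩

/-- the root unipotent `x_{-α}(ξ)` of `SL₂(R)` for the negative root. -/
def xm {R : Type} [CommRing R] (ξ : R) : SL(2, R) := ⟨!![1, 0; ξ, 1], by simp [det_fin_two]⟩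

/-- `U`, the subgroup generated by the positive root unipotents, as a subset. -/
def U (R : Type) [CommRing R] : Set SL(2, R) := Subgroup.closure (Set.range (xp (R := R)))

/-- `U⁻`, the subgroup generated by the negative root unipotents, as a subset. -/
def Um (R : Type) [CommRing R] : Set SL(2, R) := Subgroup.closure (Set.range (xm (R := R)))

theorem xp_mul (a b : ℤ) : xp a * xp b = xp (a + b) := by
  ext i j; fin_cases i <;> fin_cases j <;> simp [xp, Matrix.mul_apply, Fin.sum_univ_two, add_comm]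

theorem xm_mul (a b : ℤ) : xm a * xm b = xm (a + b) := by
  ext i j; fin_cases i <;> fin_cases j <;> simp [xm, Matrix.mul_apply, Fin.sum_univ_two]

theorem xp_zero : xp (0 : ℤ) = 1 := by
  ext i j; fin_cases i <;> fin_cases j <;> simp [xp]

theorem xm_zero : xm (0 : ℤ) = 1 := by
  ext i j; fin_cases i <;> fin_cases j <;> simp [xm]

theorem form (f : ℤ → SL(2, ℤ)) (hm : ∀ a b, f a * f b = f (a + b)) (h0 : f 0 = 1)
    (g : SL(2, ℤ)) (hg : g ∈ Subgroup.closure (Set.range f)) : ∃ a, g = f a := by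
  induction hg using Subgroup.closure_induction with
  | mem x h => obtain ⟨a, rfl⟩ := h; exact ⟨a, rfl⟩
  | one => exact ⟨0, h0.symm⟩
  | mul x y _ _ hx hy =>
    obtain ⟨a, rfl⟩ := hx
    obtain ⟨b, rfl⟩ := hy
    exact ⟨a + b, hm a b⟩
  | inv x _ hx =>
    obtain ⟨a, rfl⟩ := hx
    exact ⟨-a, by rw [inv_eq_iff_mul_eq_one, hm, add_neg_cancel, h0]⟩

theorem arith (k b c d : ℤ) (h1 : 1 + c * d = -13 + 21 * k) (h2 : d + b * (1 + c * d) = -21) :
    False := by
  have hd : d ∣ -14 + 21 * k := ⟨c, by linarith⟩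
  rw [h1] at h2
  have hle := Int.le_of_dvd (abs_pos.2 (by omega : -14 + 21 * k ≠ 0))
    ((abs_dvd_abs _ _).2 hd)
  have small : ∀ n : ℤ, 0 < n → d ∣ n → -n ≤ d ∧ d ≤ n := fun n hn h =>
    abs_le.1 (Int.le_of_dvd hn ((abs_dvd _ _).2 h))
  by_cases b0 : b = 0
  · subst b0
    have : d = -21 := by omega
    subst this
    omega
  by_cases b1 : b = 1
  · subst b1
    have h3 : d ∣ 22 := by
      have := (dvd_add hd (dvd_refl d)).neg_right
      rwa [show -(-14 + 21 * k + d) = 22 by omega] at this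
    obtain ⟨l, u⟩ := small 22 (by norm_num) h3
    interval_cases d <;> omega
  by_cases b2 : b = -1
  · subst b2
    have h3 : d ∣ 20 := by
      have := dvd_sub hd (dvd_refl d)
      rwa [show -14 + 21 * k - d = 20 by omega] at this
    obtain ⟨l, u⟩ := small 20 (by norm_num) h3
    interval_cases d <;> omega
  have hk : k = 0 ∨ k = 1 := by
    by_contra hk
    rcases (by omega : 2 ≤ k ∨ k ≤ -1) with hk | hk
    · rw [abs_of_pos (by omega : 0 < -14 + 21 * k)] at hle
      obtain ⟨l, u⟩ := abs_le.1 hle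
      rcases (by omega : 2 ≤ b ∨ b ≤ -2) with hb | hb <;> nlinarith
    · rw [abs_of_neg (by omega : -14 + 21 * k < 0)] at hle
      obtain ⟨l, u⟩ := abs_le.1 hle
      rcases (by omega : 2 ≤ b ∨ b ≤ -2) with hb | hb <;> nlinarith
  rcases hk with rfl | rfl
  · have h3 : d ∣ 14 := by simpa using hd
    obtain ⟨l, u⟩ := small 14 (by norm_num) h3
    interval_cases d <;> omega
  · have h3 : d ∣ 7 := by simpa using hd
    obtain ⟨l, u⟩ := small 7 (by norm_num) h3
    interval_cases d <;> omega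

theorem result : Um ℤ * U ℤ * Um ℤ * U ℤ * Um ℤ ≠ U ℤ * Um ℤ * U ℤ * Um ℤ * U ℤ := by
  intro h
  have hp : ∀ a : ℤ, xp a ∈ U ℤ := fun a => Subgroup.subset_closure ⟨a, rfl⟩
  have hm : ∀ a : ℤ, xm a ∈ Um ℤ := fun a => Subgroup.subset_closure ⟨a, rfl⟩
  have hg : xm 1 * xp 1 * xm 2 * xp (-3) * xm 2 ∈ Um ℤ * U ℤ * Um ℤ * U ℤ * Um ℤ :=
    Set.mul_mem_mul (Set.mul_mem_mul (Set.mul_mem_mul (Set.mul_mem_mul (hm _) (hp _)) (hm _))
      (hp _)) (hm _)
  rw [h] at hg
  obtain ⟨_, ⟨_, ⟨_, ⟨x1, h1, x2, h2, rfl⟩, x3, h3, rfl⟩, x4, h4, rfl⟩, x5, h5, e⟩ := hg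
  obtain ⟨k, rfl⟩ := form xp xp_mul xp_zero _ h1
  obtain ⟨b, rfl⟩ := form xm xm_mul xm_zero _ h2
  obtain ⟨c, rfl⟩ := form xp xp_mul xp_zero _ h3
  obtain ⟨d, rfl⟩ := form xm xm_mul xm_zero _ h4
  obtain ⟨l, rfl⟩ := form xp xp_mul xp_zero _ h5
  have e0 := congrArg (fun g : SL(2, ℤ) => g 0 0) e
  have e1 := congrArg (fun g : SL(2, ℤ) => g 1 0) e
  simp [xp, xm, Matrix.mul_apply, Fin.sum_univ_two] at e0 e1
  exact arith k b c d (by linear_combination e0 - k * e1) (by linear_combination e1)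

end Pool.Agent.Results.MP_b8636a_al.Differ
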